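import Pool.Agent.Run7.h708.TF.Final
set_option autoImplicit false

/-!
# The value of the Toads and Frogs position `T^7 □^7 F^6` is neither `1` nor `1*`

Left, moving first, wins both `T^7 □^7 F^6 - 1` and `T^7 □^7 F^6 - 1 - *` (in the latter by taking the
star at once: she also wins `T^7 □^7 F^6 - 1` moving second). The winning strategies (19434 positions
in which Right is to move) are checked by the kernel; a play is cut off as soon as Left has at least as
many undisturbed moves left as Right can make in all.
-/

namespace Pool.Agent.Results.MP_a6e7b1_co.SevenToads

open Run7.h708.TF Sq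

/-- the position after Left's only first move -/
def next : List Sq := [T, T, T, T, T, T, E, T, E, E, E, E, E, E, F, F, F, F, F, F]

lemma first_move : LMove (start 7) next :=
  LMove.slide [T, T, T, T, T, T] [E, E, E, E, E, E, F, F, F, F, F, F]

lemma good_ff : Good (next, (true, false)) :=
  good_of_check2 Cert.full_ok _ ⟨rfl, Or.inr (by decide +kernel)⟩

lemma good_tt : Good (start 7, (true, false)) :=
  good_of_check2 Cert.full_ok _ ⟨rfl, Or.inr (by decide +kernel)⟩

/-- **Theorem.** The value of `T^7 □^7 F^6` is neither `1` nor `1* = 1 + *`. -/
theorem result : ¬ EqualValue toadsAndFrogs (start 7) one true ∧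
    ¬ EqualValue toadsAndFrogs (start 7) (one.add star) (true, true) := by
  constructor
  · intro h
    refine h.1 ?_
    have h1 : WinsFirst RS.left RS.right (start 7, (true, false)) :=
      WinsFirst.intro _ (next, (true, false)) (left_board true false first_move) good_ff
    exact drop_star h1 rfl
  · intro h
    refine h.1 ?_
    exact WinsFirst.intro _ (start 7, (true, false)) (left_star (start 7) true) good_tt

end Pool.Agent.Results.MP_a6e7b1_co.SevenToads
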